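import Mathlib

/-!
# Project TM: a measure of transcendence of `π` (statements)

Owner: helper47.  Mahler's method (Hermite's system of Padé approximations of the first kind of
`1, e^z, …, e^{nz}` with `n → ∞` and bounded degree `N`) gives `|P(π)| ≥ c(d) H^{-K^d}`.
-/

set_option autoImplicit false

namespace Pool.Agent.W47.TM

open Finset Polynomial

/-- the exponents -/
def ex (N h l : ℕ) : ℕ := N + if l = h then 1 else 0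

/-- the power series expansion at `k` of `∏_{l ≠ k} (ζ - l)^(-ex l)`, variable `X = ζ - k` -/
noncomputable def ser (n N h k : ℕ) : PowerSeries ℚ :=
  ∏ l ∈ (range (n + 1)).erase k,
    ((PowerSeries.C ((k : ℚ) - (l : ℚ)) + PowerSeries.X)⁻¹) ^ ex N h l

/-- the coefficients of the partial fraction decomposition -/
noncomputable def co (n N h k j : ℕ) : ℚ := PowerSeries.coeff (ex N h k - 1 - j) (ser n N h k)

/-- Hermite's polynomials -/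
noncomputable def A (n N h k : ℕ) : ℚ[X] :=
  ∑ j ∈ range (ex N h k), C (co n N h k j / (j.factorial : ℚ)) * X ^ j

/-- partial fraction decomposition of `1 / ∏ (ζ - l)^(ex l)` -/
def S_PF : Prop := ∀ n N h : ℕ, 1 ≤ N → h ≤ n →
  (∑ k ∈ range (n + 1), ∑ j ∈ range (ex N h k), C (co n N h k j) *
    (∏ l ∈ (range (n + 1)).erase k, (X - C (l : ℚ)) ^ ex N h l) *
      (X - C (k : ℚ)) ^ (ex N h k - 1 - j) : ℚ[X]) = 1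

/-- the coefficient of `z^m` in `∑_k A_k(z) e^{kz}` -/
noncomputable def rc (n N h m : ℕ) : ℚ :=
  ∑ k ∈ range (n + 1), ∑ j ∈ range (ex N h k),
    if j ≤ m then (co n N h k j / (j.factorial : ℚ)) * ((k : ℚ) ^ (m - j) / ((m - j).factorial : ℚ))
    else 0

/-- the remainder -/
def S_REM : Prop := ∀ n N h : ℕ, 1 ≤ N → h ≤ n →
  (∀ m < (n + 1) * N, rc n N h m = 0) ∧
  ∀ m, (n + 1) * N ≤ m → 0 ≤ rc n N h m ∧
    rc n N h m ≤ (m.choose ((n + 1) * N) : ℚ) * (n : ℚ) ^ (m - (n + 1) * N) / (m.factorial : ℚ)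

/-- the remainder, analytic form -/
def S_REMC : Prop := ∀ n N h : ℕ, 1 ≤ N → h ≤ n → ∀ z : ℂ,
  ‖∑ k ∈ range (n + 1), aeval z (A n N h k) * Complex.exp ((k : ℂ) * z)‖ ≤
    ‖z‖ ^ ((n + 1) * N) / (((n + 1) * N).factorial : ℝ) * Real.exp (n * ‖z‖)

/-- nonvanishing -/
def S_NV : Prop := ∀ n N : ℕ, 1 ≤ N → ∀ z : ℂ, z ≠ 0 → ∀ v : ℕ → ℂ, (∃ k ≤ n, v k ≠ 0) →
  ∃ h ≤ n, ∑ k ∈ range (n + 1), aeval z (A n N h k) * v k ≠ 0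

/-- the common denominator -/
def Dn (n N : ℕ) : ℕ := N.factorial * n.factorial ^ N * Nat.lcmUpto n ^ (N + 1)

/-- integrality and size -/
def S_INTG : Prop := ∀ n N h k : ℕ, 1 ≤ N → h ≤ n → k ≤ n → ∀ j : ℕ, ∃ z : ℤ,
  (Dn n N : ℚ) * (A n N h k).coeff j = z ∧
    |z| ≤ ((N.factorial * 2 ^ (n * N) * 2 ^ ((n + 1) * N) * Nat.lcmUpto n ^ (N + 1) : ℕ) : ℤ)

/-- elimination -/
def S_ELIM : Prop := ∀ d N : ℕ, ∃ C : ℝ, 1 ≤ C ∧ ∀ (P Q : ℤ[X]) (H G x : ℝ), Irreducible P →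
  1 ≤ P.natDegree → P.natDegree ≤ d → ¬ P ∣ Q → Q.natDegree ≤ N → 1 ≤ H → 1 ≤ G →
  (∀ i, |(P.coeff i : ℝ)| ≤ H) → (∀ i, |(Q.coeff i : ℝ)| ≤ G) → |x| ≤ 4 →
  1 ≤ C * H ^ N * G ^ d * (|aeval x P| + |aeval x Q|)

/-- the auxiliary polynomials -/
def S_AUX : Prop := ∃ C : ℝ, 1 ≤ C ∧ ∀ n N : ℕ, 1 ≤ n → 1 ≤ N → ∀ P : ℤ[X], 1 ≤ P.natDegree →
  P.coeff 0 ≠ 0 → ∃ Q : ℤ[X], ¬ P ∣ Q ∧ Q.natDegree ≤ N ∧
    (∀ i, |(Q.coeff i : ℝ)| ≤ (N.factorial : ℝ) * C ^ (n * N)) ∧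
    |aeval Real.pi Q| ≤ (C / N) ^ (n * N)

/-- measure for irreducible polynomials -/
def S_IRR : Prop := ∃ K : ℝ, 1 ≤ K ∧ ∀ d : ℕ, 1 ≤ d → ∃ c : ℝ, 0 < c ∧ ∀ P : ℤ[X],
  Irreducible P → P.natDegree ≤ d → ∀ H : ℝ, 1 ≤ H → (∀ i, |(P.coeff i : ℝ)| ≤ H) →
    c ≤ H ^ (K ^ d) * |aeval Real.pi P|

/-- from irreducible to arbitrary polynomials -/
def S_FACT : Prop := ∀ (d : ℕ) (κ c x : ℝ), 0 ≤ κ → 0 < c →
  (∀ P : ℤ[X], Irreducible P → P.natDegree ≤ d → ∀ H : ℝ, 1 ≤ H →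
    (∀ i, |(P.coeff i : ℝ)| ≤ H) → c ≤ H ^ κ * |aeval x P|) →
  ∃ c' : ℝ, 0 < c' ∧ ∀ P : ℤ[X], P ≠ 0 → P.natDegree ≤ d → ∀ H : ℝ, 1 ≤ H →
    (∀ i, |(P.coeff i : ℝ)| ≤ H) → c' ≤ H ^ κ * |aeval x P|

/-- **measure of transcendence of `π`** -/
def S_MEAS : Prop := ∃ K : ℝ, 1 ≤ K ∧ ∀ d : ℕ, 1 ≤ d → ∃ c : ℝ, 0 < c ∧ ∀ P : ℤ[X],
  P ≠ 0 → P.natDegree ≤ d → ∀ H : ℝ, 1 ≤ H → (∀ i, |(P.coeff i : ℝ)| ≤ H) →
    c ≤ H ^ (K ^ d) * |aeval Real.pi P|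

/-- steps -/
def S_T2 : Prop := S_PF → S_REM
def S_T3 : Prop := S_REM → S_REMC
def S_T4 : Prop := S_REM → S_NV
def S_T8 : Prop := S_REMC → S_NV → S_INTG → S_AUX
def S_T9 : Prop := S_AUX → S_ELIM → S_IRR

theorem meas_of (h1 : S_IRR) (h2 : S_FACT) : S_MEAS := by
  obtain ⟨K, hK, h⟩ := h1
  refine ⟨K, hK, fun d hd => ?_⟩
  obtain ⟨c, hc, hP⟩ := h d hd
  exact h2 d (K ^ d) c Real.pi (by positivity) hc hP

end Pool.Agent.W47.TM
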