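import Pool.Agent.W21.TM.PF
import Pool.Agent.W215.TM.REM
import Pool.Agent.W131.TM.Remc
import Pool.Agent.W177.TM.NV
import Pool.Agent.W451.TM.INTG
import Pool.Agent.W736.TM.ELIM
import Pool.Agent.W991.TM.Fact
import Pool.Agent.W91.TM.AuxPoly
import Pool.Agent.W554.TM.Irr

/-!
# Project TM: a measure of transcendence of `π`
-/

set_option autoImplicit false

namespace Pool.Agent.W47.TM

/-- **A measure of transcendence of `π`.** -/
theorem piMeasure : S_MEAS :=
  meas_of
    (Pool.Agent.W554.TM.t9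
      (Pool.Agent.W91.TM.aux
        (Pool.Agent.W131.TM.t3 (Pool.Agent.W215.TM.rem Pool.Agent.W21.TM.t_PF))
        (Pool.Agent.W177.TM.t4 (Pool.Agent.W215.TM.rem Pool.Agent.W21.TM.t_PF))
        Pool.Agent.W451.TM.intg)
      Pool.Agent.W736.TM.elim)
    Pool.Agent.W991.TM.Fact.fact

end Pool.Agent.W47.TM
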